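import Pool.Agent.Helper8K9.AV.Main

/-!
# Homological and numerical equivalence on the products of abelian varieties over arbitrary fields with
arbitrary varieties

Let `V j` be varieties over a field `k` of any characteristic, and let `P j`, `Q j` be polynomials with
rational coefficients, `P j` squarefree, such that `Q j (z)` is the complex conjugate of `z` for each
complex root `z` of `P j` (`IsConjugationPair`). We suppose that each `V = V j` is of one of the
following two kinds (`IsAdmissible`), with `P = P j`, `Q = Q j`.

* `V` is an abelian variety, and `H^1(V)` is semisimple under the algebraic correspondences and a set
  `𝒢` of symmetries of the cohomology (the action of the Galois group of a field of definition). On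
  `H^1(V)` there is an operator `e` with `P(e) = 0`, the adjoint of which for a polarisation is `Q(e)`,
  such that the linear operators that commute with the symmetries and the correspondences are
  polynomials in `e`.

  By the theorems of Tate, Zarhin, Mori and Faltings this is true for the `ℓ`-adic cohomology of **every
  abelian variety over every field**: let `e` be a generator of the centre of `End(V) ⊗ ℚ`, and let `P`
  be its minimal polynomial. The centre is a product of totally real fields and of CM fields, on which
  the Rosati involution is the complex conjugation. So `P` and `Q` do not depend on `ℓ`. All roots of `P`
  are real if `V` has no factors of type IV.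

* `V` is a variety which satisfies the conjecture D, the operator `(-1) ^ i` on the transcendental
  cohomology `T(V)` (the orthogonal complement of the algebraic classes) is algebraic, for example `V` is
  a surface, and `T(V)` has the same property as `H^1` above, with the form given by the cup product.
  The operator `e` need not be algebraic.

We say that the standard conjectures hold for `V` times everything (`StandardTimes`) if for **every**
set `𝒴` of varieties such that the conjecture D is true for the products of members of `𝒴`, the
conjectures D and B are true for all varieties `U` with a morphism `g` from a product of varieties
`V j` and of members of `𝒴` to `U` such that `g^*` is injective on the cohomology (for example `g`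
surjective; B is for all divisors with the hard Lefschetz property). For `𝒴` empty this says that D and B
are true for all products of the `V j` (with repetitions) and all varieties dominated by them.

**Theorem.**
1. Let `W` be any Weil cohomology, with coefficient field `K`. If for all `j` each root `x` of `P j` (in
   the algebraic closure of `K`) is conjugate to `Q j (x)` over `K` then the standard conjectures hold for
   `V` times everything.
2. If all roots of the `P j` are real then they hold for `V` times everything for **every** Weil
   cohomology theory. So, in all characteristics and for all `ℓ`, they hold for the products of
   abelian varieties without factors of type IV, and of these with all varieties whose products satisfy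
   the conjecture D.
3. In general the set of the primes `ℓ` such that they hold for `V` times everything in `ℓ`-adic
   cohomology has lower density at least `2 ^ (-n)`, where `n` is the number of the pairs of complex
   conjugate non-real roots of the `P j` (half of the degree of the type IV part of the centre of the
   endomorphism algebra, for one abelian variety).

For abelian varieties over finite fields Clozel has proved (1999) that D is true for infinitely many
`ℓ`. In this case the centre of the endomorphism algebra is generated by Frobenius. Over other fields of
positive characteristic one cannot reduce D to finite fields, as it is not known that the intersection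
form remains nondegenerate on the algebraic classes that lift.

The idea of the proof. Let `U` be a subspace of `H^1(V)` stable under the symmetries and the
correspondences, such that `U` is isotropic. By semisimplicity it has a stable complement; the
projection to `U` is a polynomial `f(e)`, with adjoint `f(Q(e))`. If `x` is a root of `P` with
nonzero eigenspace then `f(x)` is `0` or `1` and agrees with `f(Q(x))`, as `Q(x)` is a conjugate of `x`
over `K` and `f(x)` is rational. So the projection is self-adjoint and `U` is zero. By a theorem in the
starting files of this project (`Pool.Agent.R908`, by means of the optimal flags of Kempf: a numerically
trivial class which is not zero gives an isotropic stable flag) this implies D for all products. For the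
density one needs elements of a Galois group which have no fixed vectors in the odd functions on the
roots, and the theorem of Chebotarev.
-/

set_option autoImplicit false

universe u v

namespace Pool.Agent.Results.MP_f569db_ag.AbelianVarietiesAllFields

open Pool.Agent.H914 Pool.Agent.Helper8K9.AV Pool.Agent.Helper11K9.Dens Polynomial

/-- **The conjectures D and B for products of abelian varieties, and of other varieties, with arbitrary
varieties.** -/
theorem result {k : Type u} [Field k] {𝒱 : VarClass k} {ops : CycleOps 𝒱} {J : Type}
    (V : J → 𝒱.Obj) (P Q : J → ℚ[X]) (hPQ : ∀ j, IsConjugationPair (P j) (Q j)) :
    (∀ (W : WeilCohomology.{u, v} ops) (𝒢 : Set (Symmetry W)),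
      (∀ j, IsAdmissible 𝒢 (V j) (P j) (Q j)) → (∀ j, LocallyConjugate W.K (P j) (Q j)) →
      StandardTimes W V) ∧
    (∀ (W : WeilCohomology.{u, v} ops) (𝒢 : Set (Symmetry W)),
      (∀ j, IsAdmissible 𝒢 (V j) (P j) (Q j)) → (∀ j (z : ℂ), aeval z (P j) = 0 → z.im = 0) →
      StandardTimes W V) ∧
    ∀ [Fintype J] (p : ℕ) (W : ℕ → WeilCohomology.{u, 0} ops) (𝒢 : ∀ ℓ, Set (Symmetry (W ℓ))),
      (∀ (ℓ : ℕ) [Fact ℓ.Prime], ℓ ≠ p → Nonempty ((W ℓ).K ≃+* ℚ_[ℓ]) ∧
        ∀ j, IsAdmissible (𝒢 ℓ) (V j) (P j) (Q j)) →
      HasLowerDensity {ℓ | StandardTimes (W ℓ) V} ((1 / 2) ^ pairNumber P) :=
  ⟨fun _ _ hV hloc => main_local hPQ hV hloc, fun _ _ hV hre => main_real hPQ hV hre,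
    fun p _ 𝒢 hV => main_density 𝒢 hPQ p hV⟩

end Pool.Agent.Results.MP_f569db_ag.AbelianVarietiesAllFields
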