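import Pool.Agent.Helper11K9.Dens.Main

/-!
# Homological and numerical equivalence on the products of abelian varieties over finite fields with
arbitrary varieties, for the `ℓ`-adic theories with `ℓ` in a set of positive lower density

Let `V j` (`j` in a finite set) be varieties over an algebraic closure of the field with `p` elements,
each of which is an abelian variety, or a variety which satisfies the standard conjectures B and D and
for which the endomorphisms of the transcendental cohomology that commute with Frobenius are algebraic
(for example a curve or a K3 surface). Let `P j i` be squarefree polynomials with rational coefficients,
with roots of absolute value `q ^ (i / 2)`, such that `P j 1` kills Frobenius on `H^1 (V j)` (abelian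
varieties), or `P j i` kills Frobenius on the transcendental cohomology of `V j` of degree `i`, for
`i ≤ dim (V j)`. Let `n` be the number of pairs of complex conjugate non-real roots of all these
polynomials. So if `V` is one abelian variety of dimension `g` then `n ≤ g`.

**Theorem.** The set of the primes `ℓ` with the following property has lower density at least
`2 ^ (-n)`: for **every** set `𝒴` of smooth proper varieties, if the conjecture D is true for the
products of members of `𝒴` (for `ℓ`-adic cohomology) then the conjectures D and B are true for all
varieties `U` with a morphism `g` from a product of `V j` and of members of `𝒴` to `U` such that `g^*` is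
injective on the cohomology (for example `g` surjective; B is for all divisors with the hard Lefschetz
property).

For one abelian variety, and without `𝒴`, it is the theorem of Clozel that D is true for infinitely many
`ℓ`, with a lower bound for the density.

The idea of the proof. If a group `G` of order `N` acts linearly on a vector space of dimension `n` over
the rational numbers and a central involution acts as `-1` then at least `N / 2 ^ n` elements of `G`
have no nonzero fixed vector. (Average the characters of the exterior powers.) We apply it to the odd
functions on the roots. By the theorem of Chebotarev there are enough primes `ℓ` with such a Frobenius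
element, and then for each root `α` the conjugate `q / α` is a conjugate of `α` over the field of
`ℓ`-adic numbers. So the Galois group of this field permutes the eigenspaces of Frobenius, and
exchanges each with its dual. An algebraic class on a product `V × Y` has, in products of eigenspaces,
components which are algebraic with coefficients in the closure of the field of `ℓ`-adic numbers. The
class of the product of an eigenspace and its dual contains a multiple of the unit motive, so that one
can split off the factors in pairs from the norm of the component, and it is zero if it is
numerically trivial.
-/

set_option autoImplicit false

universe u

namespace Pool.Agent.Results.MP_f569db_ag.DensityAllFactors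

open Pool.Agent.H914 Pool.Agent.H914.VarClass Pool.Agent.H914.WeilCohomology
  Pool.Agent.Helper11K9.Dens Polynomial

/-- **The conjectures D and B for products with arbitrary varieties.** -/
theorem result {k : Type u} [Field k] {𝒱 : VarClass k} {ops : CycleOps 𝒱} {p : ℕ}
    [Fact p.Prime] (S : AdicSystem ops p) {J : Type} [Fintype J] (V : J → 𝒱.Obj) (P : J → ℕ → ℚ[X])
    (hP : ∀ j, AreWeilPolynomials (p ^ S.e (V j)) (P j))
    (hV : ∀ (ℓ : ℕ) [Fact ℓ.Prime], ℓ ≠ p → ∀ j, IsAdmissible (S.Φ ℓ) (V j) (P j)) :
    HasLowerDensity {ℓ | ∀ 𝒴 : Set 𝒱.Obj, (∀ Z, IsProductOf 𝒴 Z → HomEqNum (S.W ℓ) Z) →
        StandardFor (S.W ℓ) (Set.range V ∪ 𝒴)}
      ((1 / 2) ^ pairNumber (famPoly (fun j => (V j).dim) P)) :=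
  main_all S hP hV

end Pool.Agent.Results.MP_f569db_ag.DensityAllFactors
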