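import Pool.Agent.Helper11K9.Dens.Main

/-!
# The density of the primes `ℓ` for which homological and numerical equivalence coincide, and
exotic relations between Frobenius eigenvalues

Let `V j` (`j` in a finite set) be varieties over an algebraic closure of the field with `p` elements,
each of which is an abelian variety, or a variety which satisfies the standard conjectures B and D and
for which the endomorphisms of the transcendental cohomology that commute with Frobenius are algebraic
(for example a curve or a K3 surface), and let `Y i` (`i` in a finite set) be **arbitrary** smooth proper
varieties. Let `P j i` be squarefree polynomials with rational coefficients, with roots of absolute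
value `q ^ (i / 2)`, such that `P j 1` kills Frobenius on `H^1 (V j)` (abelian varieties), or `P j i`
kills Frobenius on the transcendental cohomology of `V j` of degree `i`, for `i ≤ dim (V j)`, and let
`Q j i` be polynomials with rational coefficients, with roots of absolute value `q ^ (i / 2)`, that kill
Frobenius on `H^i (Y j)`.

An exotic relation of the `V j` relative to the `Y i` is a function `r` with integral values on the
roots `α` of the polynomials `P j i`, with `r (conj α) = - r α`, such that the product of the
`α ^ (r α)` is, up to a root of unity, the product of the `β ^ (s β)` for a function `s` of the same kind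
on the roots `β` of the polynomials `Q j i`; here all numbers are normalised to be eigenvalues of
Frobenius relative to the same finite field. Let `m` be the rank of the group of these relations.

**Theorem.** The set of the primes `ℓ` with the following property has lower density at least
`2 ^ (-m)`: if the conjecture D is true for the products of the `Y i` (for `ℓ`-adic cohomology) then the
conjectures D and B are true for all varieties `U` with a morphism `g` from a product of `V j` and `Y i`
to `U` such that `g^*` is injective on the cohomology (for example `g` surjective; B is for all divisors
with the hard Lefschetz property).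

In particular (no `Y i`) the lower density of the set of the `ℓ` for which D and B are true for all
powers of an abelian variety `A` is at least `2 ^ (-m)`, where `m` is the rank of the relations
between the Frobenius eigenvalues of `A` that do not follow from the relations `α (conj α) = q`. For
example it is at least `1 / 2` if there is one such relation.
-/

set_option autoImplicit false

universe u

namespace Pool.Agent.Results.MP_f569db_ag.DensityGivenFactors

open Pool.Agent.H914 Pool.Agent.H914.VarClass Pool.Agent.H914.WeilCohomology
  Pool.Agent.Helper11K9.Dens Polynomial

/-- **The conjectures D and B for products with given varieties.** -/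
theorem result {k : Type u} [Field k] {𝒱 : VarClass k} {ops : CycleOps 𝒱} {p : ℕ}
    [Fact p.Prime] (S : AdicSystem ops p) {J I : Type} [Fintype J] [Fintype I] (V : J → 𝒱.Obj)
    (P : J → ℕ → ℚ[X]) (hP : ∀ j, AreWeilPolynomials (p ^ S.e (V j)) (P j))
    (hV : ∀ (ℓ : ℕ) [Fact ℓ.Prime], ℓ ≠ p → ∀ j, IsAdmissible (S.Φ ℓ) (V j) (P j))
    (Y : I → 𝒱.Obj) (Q : I → ℕ → ℚ[X]) (hQ : ∀ i, AreWeilPolynomials (p ^ S.e (Y i)) (Q i))
    (hY : ∀ (ℓ : ℕ) [Fact ℓ.Prime], ℓ ≠ p → ∀ i, KillsCohomology (S.Φ ℓ) (Y i) (Q i)) :
    HasLowerDensity {ℓ | (∀ Z, IsProductOf (Set.range Y) Z → HomEqNum (S.W ℓ) Z) →
        StandardFor (S.W ℓ) (Set.range V ∪ Set.range Y)}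
      ((1 / 2) ^ relativeRank
        (famPoly (fun j => (V j).dim) P) (famExp (fun j => (V j).dim) (fun j => S.e (V j)))
        (famPoly (fun i => 2 * (Y i).dim) Q)
        (famExp (fun i => 2 * (Y i).dim) (fun i => S.e (Y i)))) :=
  main_rel S hP hV hQ hY

end Pool.Agent.Results.MP_f569db_ag.DensityGivenFactors
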