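import Pool.Agent.Helper11K9.Dens.Main

/-!
# A criterion for the conjecture D for products with abelian varieties over finite fields

Let `W` be **any** Weil cohomology, with coefficient field `K`, for varieties over an algebraic closure
of the field with `p` elements. Let `V j` (`j` in a finite set) be varieties each of which is an abelian
variety, or a variety which satisfies the standard conjectures B and D and for which the endomorphisms
of the transcendental cohomology that commute with Frobenius are algebraic (for example a curve or a
K3 surface), and let `Y i` (`i` in a finite set) be **arbitrary** smooth proper varieties. Let `P j i` be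
squarefree polynomials with rational coefficients, with roots of absolute value `q ^ (i / 2)`, such
that `P j 1` kills Frobenius on `H^1 (V j)` (abelian varieties), or `P j i` kills Frobenius on the
transcendental cohomology of `V j` of degree `i`, for `i ≤ dim (V j)`, and let `Q j i` be polynomials
with rational coefficients, with roots of absolute value `q ^ (i / 2)`, that kill Frobenius on
`H^i (Y j)`.

An exotic relation of the `V j` relative to the `Y i` is a function `r` with integral values on the
roots `α` of the polynomials `P j i`, with `r (conj α) = - r α`, such that the product of the
`α ^ (r α)` is, up to a root of unity, the product of the `β ^ (s β)` for a function `s` of the same kind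
on the roots `β` of the polynomials `Q j i`; here all numbers are normalised to be eigenvalues of
Frobenius relative to the same finite field.

**Theorem.** Let `E` be a number field, normal over the rational numbers, which contains all the roots,
`τ` an embedding of `E` in the algebraic closure of `K` and `σ` an automorphism of `E` such that `τ (σ α)`
and `τ α` are conjugate over `K` for all roots `α` of the polynomials `P j i`. If `σ` fixes no nonzero
rational linear combination of relative exotic relations, and D is true for the products of the `Y i`,
then D and B are true for all varieties `U` with a morphism `g` from a product of the `V j` and `Y i` to `U`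
such that `g^*` is injective.

Examples: (1) `σ = 1`; D is true for products with the `V j`, for every Weil cohomology, if there are
no relative exotic relations. (2) `σ` is the complex conjugation, and belongs to the decomposition group;
this is the case of Clozel.
-/

set_option autoImplicit false

universe u v

namespace Pool.Agent.Results.MP_f569db_ag.FrobeniusCriterion

open Pool.Agent.H914 Pool.Agent.H914.VarClass Pool.Agent.H914.WeilCohomology
  Pool.Agent.W534 Pool.Agent.Helper11K9.Dens Polynomial

/-- **The conjectures D and B for products, and elements of the Galois group without invariant
exotic relations.** -/
theorem result {k : Type u} [Field k] {𝒱 : VarClass k} {ops : CycleOps 𝒱} {p : ℕ}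
    [Fact p.Prime] {W : WeilCohomology.{u, v} ops} (Φ : FrobSystem W p) {J I : Type} [Fintype J]
    [Fintype I] (V : J → 𝒱.Obj) (P : J → ℕ → ℚ[X])
    (hP : ∀ j, AreWeilPolynomials (p ^ Φ.e (V j)) (P j)) (hV : ∀ j, IsAdmissible Φ (V j) (P j))
    (Y : I → 𝒱.Obj) (Q : I → ℕ → ℚ[X]) (hQ : ∀ i, AreWeilPolynomials (p ^ Φ.e (Y i)) (Q i))
    (hY : ∀ i, KillsCohomology Φ (Y i) (Q i))
    (hσ : HasGoodAutomorphism W.K
      (famPoly (fun j => (V j).dim) P) (famExp (fun j => (V j).dim) (fun j => Φ.e (V j)))
      (famPoly (fun i => 2 * (Y i).dim) Q)
      (famExp (fun i => 2 * (Y i).dim) (fun i => Φ.e (Y i))))
    (hD : ∀ Z, IsProductOf (Set.range Y) Z → HomEqNum W Z) :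
    StandardFor W (Set.range V ∪ Set.range Y) :=
  main_criterion Φ hP hV hQ hY hσ hD

end Pool.Agent.Results.MP_f569db_ag.FrobeniusCriterion
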